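import Pool.Agent.Helper60.T3.Defs

/-! Packet T3-EXTR (MP_a41896_nt): extraction from an ultrafilter. -/

set_option autoImplicit false

namespace Pool.Agent.Helper83.T3.EXTR

open Filter

theorem t : Pool.Agent.Helper60.T3.S_EXTR := by
  intro U P Q hP hQ n
  obtain ⟨g, h1, h2⟩ := exists_seq_of_forall_finset_exists
    (fun i => P i ∧ ∀ᶠ j in (U : Filter ℕ), Q i j) Q (by
      intro s hs
      have h : ∀ᶠ j in (U : Filter ℕ), ∀ x ∈ s, Q x j := by
        rw [Finset.eventually_all]
        exact fun x hx => (hs x hx).2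
      obtain ⟨y, hy1, hy2⟩ := ((hP.and hQ).and h).exists
      exact ⟨y, hy1, hy2⟩)
  exact ⟨g, fun a _ => (h1 a).1, fun a b hab _ => h2 a b hab⟩

end Pool.Agent.Helper83.T3.EXTR
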